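import Mathlib
import Pool.Agent.H2.SF02Defs
import Pool.Agent.H2.SF02Proof

open Pool.Agent.H2.SF02 in
theorem Pool.Agent.Results.MP_c3b97e_co.Cyclic.result (n : ℕ) (hn : 0 < n) :
    (∀ p : ℕ, IsLeast {q : ℕ | q.Prime ∧ q ∣ n ∧ q % 4 = 3} p →
      IsGreatest (sizes (ZMod n)) ((p + 1) / 4 * (n / p))) ∧
    ((¬ ∃ q : ℕ, q.Prime ∧ q ∣ n ∧ q % 4 = 3) → IsGreatest (sizes (ZMod n)) (n / 4)) := by
  have : NeZero n := ⟨hn.ne'⟩
  exact ⟨fun p hp => by simpa using case_a (G := ZMod n) (by simpa using hp), cyclic_b n⟩
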